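import Pool.Agent.MP_66cee2_co.Q.Fold

/-
The fold step for a chart in the closure of the open set.
-/

namespace Pool.Agent.MP_66cee2_co.H63

open Set Metric Module Filter Topology Pool.Agent.MP_66cee2_co.X Pool.Agent.MP_66cee2_co.D
open Pool.Agent.MP_66cee2_co.TR Pool.Agent.MP_66cee2_co.Q
open scoped RealInnerProductSpace

theorem locB {d n : ℕ} {O : (Ix n → ℝ) → Set (E d)} (hO : Fam O) (B : Set (E d)) :
    ∃ L : E d → Submodule ℝ (Ix n → ℝ),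
      (∀ p, ∃ ε : ℝ, 0 < ε ∧ (∀ p' ∈ ball p ε, L p' ≤ L p) ∧
        ∀ v, ∀ y ∈ O v, y ∈ B → y ∈ ball p ε → v ∈ L p) ∧
      (∀ w, ∀ y ∈ O w, ∀ p, ‖y - p‖ = 1 → ∀ v ∈ L p, lz w v = 0) ∧
      ∀ W : Submodule ℝ (Ix n → ℝ), Lab O B W → ∀ p, L p ≤ W := by
  let Λ : E d → ℝ → Submodule ℝ (Ix n → ℝ) := fun p ε =>
    Submodule.span ℝ {v | ∃ y ∈ O v, y ∈ B ∧ y ∈ ball p ε}
  have mono : ∀ p p' ε ε', ball p ε ⊆ ball p' ε' → Λ p ε ≤ Λ p' ε' := fun p p' ε ε' h =>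
    Submodule.span_mono fun v ⟨y, hy, hB, hb⟩ => ⟨y, hy, hB, h hb⟩
  have ex : ∀ p, ∃ ε : ℝ, 0 < ε ∧ ∀ δ : ℝ, 0 < δ → Λ p ε ≤ Λ p δ := by
    intro p
    obtain ⟨ε, e0, em⟩ : ∃ ε ∈ Ioi (0 : ℝ), ∀ δ ∈ Ioi (0 : ℝ),
        finrank ℝ (Λ p ε) ≤ finrank ℝ (Λ p δ) :=
      ⟨Function.argminOn (fun ε => finrank ℝ (Λ p ε)) (Ioi 0) ⟨1, by simp⟩,
        Function.argminOn_mem _ _ _,
        fun x hx => Function.argminOn_le (fun ε => finrank ℝ (Λ p ε)) _ hx⟩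
    refine ⟨ε, e0, fun δ hδ => ?_⟩
    have e := Submodule.eq_of_le_of_finrank_le
      (mono p p (min ε δ) ε (ball_subset_ball (min_le_left _ _))) (em _ (lt_min e0 hδ))
    rw [← e]
    exact mono p p _ _ (ball_subset_ball (min_le_right _ _))
  choose ε e0 e1 using ex
  refine ⟨fun p => Λ p (ε p), fun p => ⟨ε p, e0 p, fun p' hp' => ?_, fun v y hy hB hb =>
    Submodule.subset_span ⟨y, hy, hB, hb⟩⟩, fun w y hy p hp v hv => ?_, fun W hL p => ?_⟩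
  · obtain ⟨δ, d0, d1⟩ := Metric.isOpen_iff.1 isOpen_ball p' hp'
    exact (e1 p' δ d0).trans (mono _ _ _ _ d1)
  · obtain ⟨δ, d0, d1⟩ := Metric.isOpen_iff.1 (hO.opn w) y hy
    have h : Λ p δ ≤ perp (Submodule.span ℝ {w}) := by
      refine Submodule.span_le.2 ?_
      rintro v ⟨z, hz, -, hb⟩ u hu
      obtain ⟨c, rfl⟩ := Submodule.mem_span_singleton.1 hu
      have h1 : z + (y - p) ∈ O w := d1 (by
        rw [mem_ball_iff_norm] at hb ⊢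
        rwa [show z + (y - p) - y = z - p by abel])
      have h2 := hO.orth w v _ z h1 hz (by rwa [add_sub_cancel_left])
      rw [lz_comm]
      exact (smul_dotProduct c w _).trans ((congrArg _ h2).trans (smul_zero c))
    rw [lz_comm]
    exact h (e1 p δ d0 hv) w (Submodule.mem_span_singleton_self w)
  · exact Submodule.span_le.2 fun v ⟨y, hy, hB, _⟩ => hL v y hy hB

open Foldx in
/-- a continuum `K` in the image of the chart; all lunes of `K` have labels in `W'`. -/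
theorem foldKC (h1 : SLeb) (h2 : SRel) {d n c s : ℕ} {O : (Ix n → ℝ) → Set (E d)} {B : Set (E d)}
    {W : Submodule ℝ (Ix n → ℝ)} (hO : Fam O) (hB : IsOpen B) (hL : Lab O B W) (hS : Su c W)
    (F : Type) [NormedAddCommGroup F] [InnerProductSpace ℝ F] [FiniteDimensional ℝ F]
    (φ : F × ℝ → E d) (φc : Continuous φ) (hsh : ∀ p ∈ Cyl F, φ p ∈ closure B)
    (hrim : ∀ p ∈ Cyl F, ∀ q ∈ Cyl F, ‖p.1‖ = 1 → ‖q.1‖ = 1 → ‖φ p - φ q‖ ≤ 1 → 0 < ⟪p.1, q.1⟫)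
    (hend : ∀ p ∈ Cyl F, ∀ q ∈ Cyl F, p.2 = 0 → q.2 = 1 → φ p ≠ φ q) (Fd : s ≤ finrank ℝ F)
    {ε : ℝ} (ε0 : 0 < ε) :
    ∃ (W' : Submodule ℝ (Ix n → ℝ)) (K : Set (E d)), K ⊆ φ '' Cyl F ∧ IsPreconnected K ∧
      (∃ a ∈ K, ∃ b ∈ K, a ≠ b) ∧ (∀ a ∈ K, ∀ b ∈ K, ‖a - b‖ ≤ ε) ∧ Su (c + s + 1) W' ∧
      ∀ a ∈ K, ∀ b ∈ K, Lab O (B ∩ Lune a b) W' := by
  obtain ⟨L, l1, l2, l3⟩ := locB hO B
  obtain ⟨R, hR⟩ : ∃ R : Submodule ℝ (Ix n → ℝ), R = W ⊓ perp W := ⟨_, rfl⟩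
  let r : E d → ℕ := fun x => finrank ℝ (L x ⊔ R : Submodule ℝ (Ix n → ℝ)) - finrank ℝ R
  have lab : ∀ p ∈ closure B, ∀ δ : ℝ, 0 < δ →
      ∃ v, ∃ y ∈ O v, y ∈ B ∧ y ∈ ball p δ ∧ v ∈ L p := by
    intro p hp δ hδ
    obtain ⟨ε, e0, -, e2⟩ := l1 p
    obtain ⟨y, hy, hx⟩ := hO.dense.inter_open_nonempty (ball p (min ε δ) ∩ B)
      (isOpen_ball.inter hB)
      (mem_closure_iff.1 hp _ isOpen_ball (mem_ball_self (lt_min e0 hδ)))
    obtain ⟨v, hv⟩ := mem_iUnion.1 hx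
    exact ⟨v, y, hv, hy.2, ball_subset_ball (min_le_right _ _) hy.1,
      e2 v y hv hy.2 (ball_subset_ball (min_le_left _ _) hy.1)⟩
  have le0 : ∀ x, finrank ℝ R ≤ finrank ℝ (L x ⊔ R : Submodule ℝ (Ix n → ℝ)) := fun x =>
    Submodule.finrank_mono le_sup_right
  have big : ∀ x ∈ closure B, 1 ≤ r x := fun x hx => by
    obtain ⟨v, y, hy, -, -, hv⟩ := lab x hx 1 one_pos
    refine Nat.sub_pos_of_lt
      (Submodule.finrank_lt_finrank_of_lt (lt_of_le_of_ne le_sup_right fun e => ?_))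
    have h0 : v ∈ R := e ▸ Submodule.mem_sup_left hv
    rw [hR] at h0
    exact (hO.pos v ⟨y, hy⟩).ne' (h0.2 v h0.1)
  have rc : ∀ j, IsClosed {x | j ≤ r x} := fun j => by
    rw [← isOpen_compl_iff, Metric.isOpen_iff]
    intro x hx
    obtain ⟨ε, e0, e1, -⟩ := l1 x
    exact ⟨ε, e0, fun y hy h => hx (le_trans h
      (Nat.sub_le_sub_right (Submodule.finrank_mono (sup_le_sup_right (e1 y hy) R)) _))⟩
  have cst : ∀ (j : ℕ) (S : Set (E d)), IsPreconnected S → (∀ x ∈ S, r x = j) →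
      ∀ a ∈ S, ∀ b ∈ S, L a ⊔ R = L b ⊔ R := by
    intro j S hS hj a ha b hb
    refine hS.induction₂' (fun x y => L x ⊔ R = L y ⊔ R) (fun x hx => ?_)
      (fun _ _ _ _ _ _ => Eq.trans) ha hb
    obtain ⟨ε, e0, e1, -⟩ := l1 x
    filter_upwards [mem_nhdsWithin_of_mem_nhds (ball_mem_nhds x e0), self_mem_nhdsWithin]
      with y hy hyS
    have a1 : _ - _ = j := hj x hx
    have a2 : _ - _ = j := hj y hyS
    have a3 := le0 x
    have a4 := le0 y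
    have := Submodule.eq_of_le_of_finrank_le (sup_le_sup_right (e1 y hy) R) (by omega)
    exact ⟨this.symm, this⟩
  have ivt : ∀ (j : ℕ) (S : Set (E d)), IsPreconnected S → (∀ x ∈ S, r x = j) →
      ∀ a ∈ S, ∀ b ∈ S, ∀ z ∈ S, Lab O (B ∩ Lune a b) (W ⊓ perp (L z)) := by
    intro j S hS hj a ha b hb z hz w y hy hl
    have hw := hL w y hy hl.1
    refine ⟨hw, fun v hv => ?_⟩
    have c1 : Continuous fun p : E d => ‖y - p‖ := by fun_prop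
    obtain ⟨p, hp, e⟩ := hS.intermediate_value hb ha c1.continuousOn ⟨hl.2.1.le, hl.2.2.le⟩
    have h3 : v ∈ L p ⊔ R := cst j S hS hj z hz p hp ▸ Submodule.mem_sup_left hv
    obtain ⟨v₁, k1, v₂, k2, rfl⟩ := Submodule.mem_sup.1 h3
    rw [hR] at k2
    have k3 := l2 w y hy p e v₁ k1
    rw [lz_comm] at k3 ⊢
    exact (add_dotProduct v₁ v₂ _).trans ((congrArg₂ _ k3 (k2.2 w hw)).trans (add_zero 0))
  have dia : ∀ (j : ℕ) (S : Set (E d)), S ⊆ closure B → IsPreconnected S → (∀ x ∈ S, r x = j) →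
      ∀ a ∈ S, ∀ b ∈ S, ‖a - b‖ ≤ 1 := by
    intro j S hSB hS hj a ha b hb
    by_contra hlt
    push Not at hlt
    obtain ⟨v, y, hy, hyB, hb', hv⟩ := lab b (hSB hb) (min 1 (‖a - b‖ - 1))
      (lt_min one_pos (by linarith))
    rw [mem_ball_iff_norm, lt_min_iff] at hb'
    have h1 : 1 < ‖y - a‖ := by
      have := norm_sub_le (y - b) (y - a)
      rw [show y - b - (y - a) = a - b by abel] at this
      linarith [hb'.2]
    exact (hO.pos v ⟨y, hy⟩).ne'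
      ((ivt j S hS hj a ha b hb b hb v y hy ⟨hyB, hb'.1, h1⟩).2 v hv)
  obtain ⟨S, S1, S2, S3, p, hp, q, hq, p0, q1⟩ := h1 F s (fun p => max 1 (r (φ p))) Fd
    (fun j => by
      simp only [le_max_iff, ofPred_or]
      exact isClosed_const.union ((rc j).preimage φc)) (fun p => le_max_left _ _)
    (fun j S hS hc hj p hp q hq np nq => hrim p (hS hp) q (hS hq) np nq
      (dia j (φ '' S) (by
          rintro _ ⟨x, hx, rfl⟩
          exact hsh x (hS hx)) (hc.image φ φc.continuousOn)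
        (by
          rintro _ ⟨x, hx, rfl⟩
          exact (max_eq_right (big _ (hsh x (hS hx)))).symm.trans (hj x hx))
        _ ⟨p, hp, rfl⟩ _ ⟨q, hq, rfl⟩))
  have hc : closure S ⊆ Cyl F := closure_minimal S1 (cyl_compact F).isClosed
  have k1 : IsCompact (φ '' closure S) :=
    ((cyl_compact F).of_isClosed_subset isClosed_closure hc).image φc
  have k2 : ∀ x ∈ φ '' closure S, s + 1 ≤ r x := by
    rintro _ ⟨x, hx, rfl⟩
    exact closure_minimal (fun y hy => (S3 y hy).trans_eq (max_eq_right (big _ (hsh y (S1 hy)))))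
      ((rc (s + 1)).preimage φc) hx
  have k3 : φ '' closure S ⊆ φ '' Cyl F := image_mono hc
  have mp : φ p ∈ φ '' closure S := ⟨p, subset_closure hp, rfl⟩
  have mq : φ q ∈ φ '' closure S := ⟨q, subset_closure hq, rfl⟩
  obtain ⟨a, ha, am⟩ : ∃ a ∈ φ '' closure S, ∀ x ∈ φ '' closure S, r a ≤ r x :=
    ⟨Function.argminOn r _ ⟨_, mp⟩, Function.argminOn_mem _ _ _,
      fun x hx => Function.argminOn_le _ _ hx⟩
  obtain ⟨z, hz, za⟩ : ∃ z ∈ φ '' closure S, z ≠ a := by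
    by_cases h : φ p = a
    · exact ⟨_, mq, fun e => hend p (S1 hp) q (S1 hq) p0 q1 (h.trans e.symm)⟩
    · exact ⟨_, mp, h⟩
  obtain ⟨K, K1, K2, aK, b, bK, ba⟩ := H31.bump _ ({x | r a + 1 ≤ r x}ᶜ ∩ ball a (ε / 2)) a z k1
    (S2.closure.image φ φc.continuousOn) ha hz za ((rc _).isOpen_compl.inter isOpen_ball)
    ⟨by simp, mem_ball_self (by linarith)⟩
  have Kj : ∀ x ∈ K, r x = r a := fun x hx => by
    have b1 := am x (K1 hx).1
    have b2 := (K1 hx).2.1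
    simp only [mem_compl_iff, mem_ofPred_eq] at b2
    omega
  refine ⟨W ⊓ perp (L a), K, fun x hx => k3 (K1 hx).1, K2, ⟨a, aK, b, bK, ba.symm⟩,
    fun x hx y hy => ?_, h2.1 n c (s + 1) W (L a) hS (l3 W hL a) ?_,
    fun x hx y hy => ivt _ K K2 Kj x hx y hy a aK⟩
  · have h3 := mem_ball.1 (K1 hx).2.2
    have h4 := mem_ball.1 (K1 hy).2.2
    rw [← dist_eq_norm]
    linarith [dist_triangle_right x y a]
  · have b1 : s + 1 ≤ _ - _ := k2 a ha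
    have b2 := le0 a
    rw [← hR]
    omega

/-- the form with two points. -/
theorem foldC (h1 : SLeb) (h2 : SRel) {d n c s : ℕ} {O : (Ix n → ℝ) → Set (E d)} {B : Set (E d)}
    {W : Submodule ℝ (Ix n → ℝ)} (hO : Fam O) (hB : IsOpen B) (hL : Lab O B W) (hS : Su c W)
    (F : Type) [NormedAddCommGroup F] [InnerProductSpace ℝ F] [FiniteDimensional ℝ F]
    (φ : F × ℝ → E d) (φc : Continuous φ) (hsh : ∀ p ∈ Cyl F, φ p ∈ closure B)
    (hrim : ∀ p ∈ Cyl F, ∀ q ∈ Cyl F, ‖p.1‖ = 1 → ‖q.1‖ = 1 → ‖φ p - φ q‖ ≤ 1 → 0 < ⟪p.1, q.1⟫)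
    (hend : ∀ p ∈ Cyl F, ∀ q ∈ Cyl F, p.2 = 0 → q.2 = 1 → φ p ≠ φ q) (Fd : s ≤ finrank ℝ F)
    {ε : ℝ} (ε0 : 0 < ε) :
    ∃ (W' : Submodule ℝ (Ix n → ℝ)), ∃ a ∈ φ '' Cyl F, ∃ b ∈ φ '' Cyl F, a ≠ b ∧ ‖a - b‖ ≤ ε ∧
      Su (c + s + 1) W' ∧ Lab O (B ∩ Lune a b) W' ∧ Lab O (B ∩ Lune b a) W' := by
  obtain ⟨W', K, k1, -, ⟨a, ha, b, hb, ab⟩, k4, k5, k6⟩ :=
    foldKC h1 h2 hO hB hL hS F φ φc hsh hrim hend Fd ε0
  exact ⟨W', a, k1 ha, b, k1 hb, ab, k4 a ha b hb, k5, k6 a ha b hb, k6 b hb a ha⟩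

end Pool.Agent.MP_66cee2_co.H63
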