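import Pool.Agent.MP_66cee2_co.S4.Spec
import Pool.Agent.MP_66cee2_co.H63.FoldC

/-
Row FoldC in the form of the specification.
-/

namespace Pool.Agent.MP_66cee2_co.H63

open Set Pool.Agent.MP_66cee2_co.Q

theorem sFoldC (h1 : SLeb) (h2 : SRel) : S4.SFoldC := by
  intro d n c s O B W F φ T hO hB hL hS hs φc hT hTB hrim hend
  obtain ⟨W', a, ⟨p, hp, rfl⟩, b, ⟨q, hq, rfl⟩, ab, -, k1, k2, k3⟩ :=
    foldC h1 h2 hO hB hL hS F φ φc (fun p hp => hTB (hT p hp)) hrim hend hs one_pos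
  exact ⟨W', _, hT p hp, _, hT q hq, ab, k1, fun v y hy hb =>
    hb.2.elim (fun e => k2 v y hy ⟨hb.1, e⟩) fun e => k3 v y hy ⟨hb.1, e⟩⟩

end Pool.Agent.MP_66cee2_co.H63
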